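import Pool.Agent.Helper47.Cyc.Defs

/-!
# MP_0130f7_co, packet D: from a symmetric chain decomposition to the list form
-/

namespace Pool.Agent.Helper47.Cyc

theorem to_lists {n : ℕ} (G : Subgroup (Equiv.Perm (Fin n))) (T : Set (Finset (Fin n)))
    (h : HasSCD n T)
    (ht : ∀ S : Finset (Fin n), ∃! A, A ∈ T ∧ ∃ g ∈ G, A.map (Equiv.toEmbedding g) = S) :
    ∃ C : Finset (List (Finset (Fin n))),
        (∀ L ∈ C, L ≠ [] ∧
          (∀ (i : ℕ) (A B : Finset (Fin n)), L[i]? = some A → L[i+1]? = some B →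
              A ⊆ B ∧ B.card = A.card + 1) ∧
          (∀ A ∈ L.head?, ∀ B ∈ L.getLast?, A.card + B.card = n)) ∧
        ∀ S : Finset (Fin n), ∃! p : List (Finset (Fin n)) × ℕ,
          p.1 ∈ C ∧ ∃ T : Finset (Fin n), p.1[p.2]? = some T ∧
            ∃ g ∈ G, T.map (Equiv.toEmbedding g) = S := by
  classical
  obtain ⟨C0, hch, hdis, hun⟩ := h
  choose! a b f hab hn hcard hsub hc using hch
  let lst : Set (Finset (Fin n)) → List (Finset (Fin n)) := fun c =>
    (List.range (b c - a c + 1)).map (fun i => f c (a c + i))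
  have hget : ∀ (c : Set (Finset (Fin n))) (i : ℕ) (A : Finset (Fin n)),
      (lst c)[i]? = some A ↔ i < b c - a c + 1 ∧ f c (a c + i) = A := by
    intro c i A
    simp only [lst, List.getElem?_map, Option.map_eq_some_iff]
    constructor
    · rintro ⟨j, hj, rfl⟩
      rw [List.getElem?_eq_some_iff] at hj
      obtain ⟨hlt, hj⟩ := hj
      rw [List.getElem_range] at hj
      rw [List.length_range] at hlt
      subst hj
      exact ⟨hlt, rfl⟩
    · rintro ⟨hlt, rfl⟩
      refine ⟨i, ?_, rfl⟩
      rw [List.getElem?_eq_some_iff]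
      refine ⟨by rw [List.length_range]; exact hlt, ?_⟩
      rw [List.getElem_range]
  have hlen : ∀ c, (lst c).length = b c - a c + 1 := by
    intro c
    simp [lst]
  refine ⟨(Set.toFinite C0).toFinset.image lst, ?_, ?_⟩
  · intro L hL
    rw [Finset.mem_image] at hL
    obtain ⟨c, hcm, rfl⟩ := hL
    rw [Set.Finite.mem_toFinset] at hcm
    have habc := hab c hcm
    refine ⟨?_, ?_, ?_⟩
    · intro h0
      have := hlen c
      rw [h0] at this
      simp at this
    · intro i A B hA hB
      rw [hget] at hA hB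
      obtain ⟨h1, rfl⟩ := hA
      obtain ⟨h2, rfl⟩ := hB
      refine ⟨hsub c hcm (a c + i) (by omega) (by omega), ?_⟩
      rw [hcard c hcm (a c + i) (by omega) (by omega),
        hcard c hcm (a c + (i + 1)) (by omega) (by omega)]
      ring
    · intro A hA B hB
      rw [Option.mem_def, List.head?_eq_getElem?, hget] at hA
      rw [Option.mem_def, List.getLast?_eq_getElem?, hlen, hget] at hB
      obtain ⟨_, rfl⟩ := hA
      obtain ⟨_, rfl⟩ := hB
      rw [hcard c hcm (a c + 0) (by omega) (by omega)]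
      have : a c + (b c - a c + 1 - 1) = b c := by omega
      rw [this, hcard c hcm (b c) habc le_rfl]
      have := hn c hcm
      omega
  · intro S
    obtain ⟨A, ⟨hAT, g, hg, hgA⟩, huniq⟩ := ht S
    have hAT' := hAT
    rw [← hun] at hAT'
    obtain ⟨c, hcm, hAc⟩ := hAT'
    have hmem : ∀ c ∈ C0, ∀ B ∈ c, a c ≤ B.card ∧ B.card ≤ b c ∧ f c B.card = B := by
      intro c hcm B hB
      rw [hc c hcm] at hB
      obtain ⟨j, hj, rfl⟩ := hB
      rw [hcard c hcm j hj.1 hj.2]
      exact ⟨hj.1, hj.2, rfl⟩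
    obtain ⟨h1, h2, h3⟩ := hmem c hcm A hAc
    refine ⟨(lst c, A.card - a c), ⟨?_, A, ?_, g, hg, hgA⟩, ?_⟩
    · rw [Finset.mem_image]
      exact ⟨c, by rw [Set.Finite.mem_toFinset]; exact hcm, rfl⟩
    · rw [hget]
      refine ⟨by omega, ?_⟩
      have : a c + (A.card - a c) = A.card := by omega
      rw [this, h3]
    · rintro ⟨L', i'⟩ ⟨hL', T', hT', g', hg', hgT'⟩
      dsimp only at hL' hT'
      rw [Finset.mem_image] at hL'
      obtain ⟨c', hcm', rfl⟩ := hL'
      rw [Set.Finite.mem_toFinset] at hcm'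
      rw [hget] at hT'
      obtain ⟨h4, h5⟩ := hT'
      have habc' := hab c' hcm'
      have hT'c' : T' ∈ c' := by
        rw [hc c' hcm']
        exact ⟨a c' + i', ⟨by omega, by omega⟩, h5⟩
      have hT'T : T' ∈ T := by
        rw [← hun]
        exact ⟨c', hcm', hT'c'⟩
      have hTA : T' = A := huniq T' ⟨hT'T, g', hg', hgT'⟩
      subst hTA
      have hcc : c' = c := by
        by_contra hne
        have := hdis hcm' hcm hne
        exact (Set.disjoint_left.mp this) hT'c' hAc
      subst hcc
      have h6 : T'.card = a c' + i' := by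
        rw [← h5, hcard c' hcm' _ (by omega) (by omega)]
      simp only [Prod.mk.injEq, true_and]
      omega

end Pool.Agent.Helper47.Cyc
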